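import Pool.Agent.Helper68.QC.St4

/-! QCM MODULE IF6 (part M of project QD, MP_d112a4_gt): Lipschitz dependence on the coefficient. -/

set_option autoImplicit false

open MeasureTheory Set Filter Topology Complex
open scoped ContDiff ComplexConjugate ENNReal

namespace Pool.Agent.Helper36.QCM

open Pool.Agent.Helper68.QC

private theorem lip (hH : HolAff) (hG : StGRO) : StLIP := by
  intro k hk R
  by_cases hk0 : k < 0
  · refine ⟨0, fun ε _ μ ν hμ _ _ z _ => ?_⟩
    exact absurd (hμ.le 0) (not_le.2 (hk0.trans_le (norm_nonneg _)))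
  push Not at hk0
  have hk' : (1 + k) / 2 < 1 := by linarith
  obtain ⟨M₀, hM₀⟩ := hG ((1 + k) / 2) hk' R
  obtain ⟨M, hM0, hMM⟩ : ∃ M : ℝ, 0 ≤ M ∧ M₀ ≤ M := ⟨max M₀ 0, le_max_right _ _, le_max_left _ _⟩
  have hM : ∀ μ, Bel ((1 + k) / 2) μ → ∀ z, ‖z‖ ≤ R → ‖nq μ z‖ ≤ M := fun μ hμ z hz =>
    ((hM₀ μ hμ z hz).1).trans hMM
  have h1k : 0 < 1 - k := by linarith
  refine ⟨4 * (M + 1) / (1 - k), fun ε hε μ ν hμ hν hd z hz => ?_⟩
  rcases hε.eq_or_lt with h0 | h0
  · have h1 : μ = ν := by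
      funext y
      have h2 := hd y
      rw [← h0] at h2
      exact sub_eq_zero.1 (norm_le_zero_iff.1 h2)
    rw [h1, sub_self, norm_zero, ← h0, mul_zero]
  obtain ⟨r, hr⟩ : ∃ r : ℝ, r = (1 - k) / (2 * ε) := ⟨_, rfl⟩
  have hr0 : 0 < r := by rw [hr]; positivity
  have hrε : r * ε = (1 - k) / 2 := by
    rw [hr]
    field_simp
  have hbμ : ∀ t ∈ Metric.ball (0 : ℂ) r, ∀ y, ‖μ y + t * (ν y - μ y)‖ ≤ (1 + k) / 2 := by
    intro t ht y
    rw [mem_ball_zero_iff] at ht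
    have h2 : ‖ν y - μ y‖ ≤ ε := by
      rw [norm_sub_rev]
      exact hd y
    have h3 : ‖t * (ν y - μ y)‖ ≤ r * ε := by
      rw [norm_mul]
      exact mul_le_mul ht.le h2 (norm_nonneg _) hr0.le
    have h4 := norm_add_le (μ y) (t * (ν y - μ y))
    have h5 := hμ.le y
    linarith
  have hmd : Measurable fun y => ν y - μ y := hν.meas.sub hμ.meas
  have hbel : ∀ t ∈ Metric.ball (0 : ℂ) r, Bel ((1 + k) / 2) fun y => μ y + t * (ν y - μ y) :=
    fun t ht => ⟨hμ.meas.add (hmd.const_mul t), hbμ t ht⟩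
  have hhol := hH ((1 + k) / 2) 2 μ (fun y => ν y - μ y) (Metric.ball 0 r) hk' hμ.meas hmd
    (fun y => (hμ.le y).trans (by linarith)) (fun y => by
      have h2 := norm_sub_le (ν y) (μ y)
      have h3 := hμ.le y
      have h4 := hν.le y
      linarith) Metric.isOpen_ball hbμ z
  have e0 : (fun y => μ y + (0 : ℂ) * (ν y - μ y)) = μ := by
    funext y
    ring
  have e1 : (fun y => μ y + (1 : ℂ) * (ν y - μ y)) = ν := by
    funext y
    ring
  have hBμ : Bel ((1 + k) / 2) μ := ⟨hμ.meas, fun y => (hμ.le y).trans (by linarith)⟩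
  have hBν : Bel ((1 + k) / 2) ν := ⟨hν.meas, fun y => (hν.le y).trans (by linarith)⟩
  rw [div_mul_eq_mul_div, le_div_iff₀ h1k]
  rcases le_or_gt r 1 with hr1 | hr1
  · have h2 := norm_sub_le (nq μ z) (nq ν z)
    have h3 := hM μ hBμ z hz
    have h4 := hM ν hBν z hz
    have h5 : 1 - k ≤ 2 * ε := by
      have h6 : r * ε ≤ 1 * ε := mul_le_mul_of_nonneg_right hr1 h0.le
      linarith
    calc ‖nq μ z - nq ν z‖ * (1 - k) ≤ (2 * M) * (2 * ε) :=
          mul_le_mul (by linarith) h5 h1k.le (by positivity)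
      _ ≤ 4 * (M + 1) * ε := by nlinarith
  · have hmaps : MapsTo (fun t => nq (fun y => μ y + t * (ν y - μ y)) z) (Metric.ball (0 : ℂ) r)
        (Metric.closedBall ((fun t => nq (fun y => μ y + t * (ν y - μ y)) z) (0 : ℂ)) (2 * M)) := by
      intro t ht
      rw [Metric.mem_closedBall, dist_eq_norm]
      have h2 := hM _ (hbel t ht) z hz
      have h3 := hM _ (hbel 0 (Metric.mem_ball_self hr0)) z hz
      have h4 := norm_sub_le (nq (fun y => μ y + t * (ν y - μ y)) z)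
        (nq (fun y => μ y + (0 : ℂ) * (ν y - μ y)) z)
      show ‖nq (fun y => μ y + t * (ν y - μ y)) z -
        nq (fun y => μ y + (0 : ℂ) * (ν y - μ y)) z‖ ≤ 2 * M
      linarith
    have h1mem : (1 : ℂ) ∈ Metric.ball (0 : ℂ) r := by
      rw [mem_ball_zero_iff, norm_one]
      exact hr1
    have h2 := Complex.dist_le_div_mul_dist_of_mapsTo_ball hhol hmaps h1mem
    rw [dist_eq_norm, dist_eq_norm, sub_zero, norm_one, mul_one] at h2
    have h3 : ‖nq ν z - nq μ z‖ ≤ 2 * M / r := by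
      have h4 : nq (fun y => μ y + (1 : ℂ) * (ν y - μ y)) z = nq ν z := by rw [e1]
      have h5 : nq (fun y => μ y + (0 : ℂ) * (ν y - μ y)) z = nq μ z := by rw [e0]
      rw [← h4, ← h5]
      exact h2
    rw [norm_sub_rev]
    rw [le_div_iff₀ hr0] at h3
    have h6 : ‖nq ν z - nq μ z‖ * (1 - k) = 2 * ε * (‖nq ν z - nq μ z‖ * r) := by
      have h7 : 1 - k = 2 * (r * ε) := by linarith
      rw [h7]
      ring
    rw [h6]
    have h8 : 2 * ε * (‖nq ν z - nq μ z‖ * r) ≤ 2 * ε * (2 * M) :=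
      mul_le_mul_of_nonneg_left h3 (by positivity)
    nlinarith

/-- IF6: Lipschitz dependence of the normalised solution on the coefficient. -/
theorem pIF6 : Pool.Agent.Helper68.QC.StIF6 := by
  intro hH hG hU
  have hL := lip hH hG
  refine ⟨hL, ?_⟩
  intro R
  obtain ⟨C, hC⟩ := hL (1 / 2) (by norm_num) R
  have hB0 : Bel (1 / 2) (fun _ => (0 : ℂ)) :=
    ⟨measurable_const, fun z => by rw [norm_zero]; norm_num⟩
  have hid : Homeomorph.refl ℂ = nq (fun _ => (0 : ℂ)) := by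
    apply hU (1 / 2) (by norm_num) _ hB0 (Homeomorph.refl ℂ) rfl rfl ∅ finite_empty
    rw [compl_empty]
    exact sol_zero isOpen_univ differentiableOn_id (Eventually.of_forall fun _ => rfl)
  refine ⟨C, fun k hk0 hk μ hμ z hz => ?_⟩
  have hμ' : Bel (1 / 2) μ := ⟨hμ.meas, fun y => (hμ.le y).trans hk⟩
  have h1 := hC k hk0 μ (fun _ => (0 : ℂ)) hμ' hB0 (fun y => by rw [sub_zero]; exact hμ.le y) z hz
  rw [← hid] at h1
  exact h1

end Pool.Agent.Helper36.QCM
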