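import Pool.Agent.Helper68.QC.St5

/-! QCM MODULE INB (part M of project QD, MP_d112a4_gt): invariance of the Beltrami coefficient. -/

set_option autoImplicit false

open MeasureTheory Set Filter Topology Complex
open scoped ContDiff ComplexConjugate ENNReal

namespace Pool.Agent.Helper36.QCM

open Pool.Agent.Helper68.QC

private theorem det_one (A : SL) : A 0 0 * A 1 1 - A 0 1 * A 1 0 = 1 := by
  have h := A.det_coe
  rw [Matrix.det_fin_two] at h
  exact h

private theorem hasDerivAt_mob (A : SL) (z : ℂ) (hz : den A z ≠ 0) :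
    HasDerivAt (mob A) (1 / den A z ^ 2) z := by
  have h1 : HasDerivAt (fun x : ℂ => A 0 0 * x + A 0 1) (A 0 0) z := by
    simpa using ((hasDerivAt_id z).const_mul (A 0 0)).add_const (A 0 1)
  have h2 : HasDerivAt (fun x : ℂ => A 1 0 * x + A 1 1) (A 1 0) z := by
    simpa using ((hasDerivAt_id z).const_mul (A 1 0)).add_const (A 1 1)
  have h3 := h1.div h2 hz
  have h4 : (A 0 0 * (A 1 0 * z + A 1 1) - (A 0 0 * z + A 0 1) * A 1 0) /
      (A 1 0 * z + A 1 1) ^ 2 = 1 / den A z ^ 2 := by
    have h5 : A 0 0 * (A 1 0 * z + A 1 1) - (A 0 0 * z + A 0 1) * A 1 0 = 1 := by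
      linear_combination det_one A
    rw [h5]
    rfl
  rw [h4] at h3
  exact h3

private theorem open_offS : IsOpen offS := isOpen_ne_fun continuous_norm continuous_const

private theorem pt (W : ℂ → ℂ) (A B : SL) (hW : ContDiffOn ℝ 1 W offS)
    (hne : ∀ z ∈ offS, dz W z ≠ 0) (hA : ∀ z ∈ offS, den A z ≠ 0 → mob A z ∈ offS)
    (hB : ∀ z, den A z ≠ 0 → den B (W z) ≠ 0 ∧ W (mob A z) = mob B (W z))
    (z : ℂ) (hz : z ∈ offS) (hd : den A z ≠ 0) :
    mu0 W (mob A z) * den A z ^ 2 = mu0 W z * conj (den A z) ^ 2 := by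
  have hWd : ∀ y ∈ offS, DifferentiableAt ℝ W y := fun y hy =>
    (hW.differentiableOn (by norm_num)).differentiableAt (open_offS.mem_nhds hy)
  have hw := hA z hz hd
  have hmA := hasDerivAt_mob A z hd
  have hmB := hasDerivAt_mob B (W z) (hB z hd).1
  have hmAd := hmA.differentiableAt
  have hmBd := hmB.differentiableAt
  have hmAr : DifferentiableAt ℝ (mob A) z := hmAd.restrictScalars ℝ
  have hmBr : DifferentiableAt ℝ (mob B) (W z) := hmBd.restrictScalars ℝ
  have hev : (fun x => W (mob A x)) =ᶠ[𝓝 z] fun x => mob B (W x) := by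
    have h1 : ∀ᶠ x in 𝓝 z, den A x ≠ 0 := by
      have h2 : Continuous (den A) := by
        unfold den
        fun_prop
      exact h2.continuousAt.eventually_ne hd
    filter_upwards [h1] with x hx
    exact (hB x hx).2
  have hfd := hev.fderiv_eq (𝕜 := ℝ)
  have e1 : dz (fun x => W (mob A x)) z = dz (fun x => mob B (W x)) z := by
    unfold dz
    rw [hfd]
  have e2 : dzb (fun x => W (mob A x)) z = dzb (fun x => mob B (W x)) z := by
    unfold dzb
    rw [hfd]
  rw [dz_comp (hWd _ hw) hmAr, dz_comp hmBr (hWd z hz), dz_holo hmAd, dzb_holo hmAd,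
    dz_holo hmBd, dzb_holo hmBd, hmA.deriv, hmB.deriv, map_zero, mul_zero, add_zero, zero_mul,
    add_zero] at e1
  rw [dzb_comp (hWd _ hw) hmAr, dzb_comp hmBr (hWd z hz), dz_holo hmAd, dzb_holo hmAd,
    dz_holo hmBd, dzb_holo hmBd, hmA.deriv, hmB.deriv, mul_zero, zero_add, zero_mul,
    add_zero, map_div₀, map_one, map_pow] at e2
  have hP := hne _ hw
  have hp := hne z hz
  have hcd : conj (den A z) ≠ 0 := (map_ne_zero _).2 hd
  have m1 : mu0 W (mob A z) = dzb W (mob A z) / dz W (mob A z) := by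
    unfold mu0
    rw [if_neg hw]
  have m2 : mu0 W z = dzb W z / dz W z := by
    unfold mu0
    rw [if_neg hz]
  rw [m1, m2, div_mul_eq_mul_div, div_mul_eq_mul_div, div_eq_div_iff hP hp]
  have e1' : dz W (mob A z) = 1 / den B (W z) ^ 2 * dz W z * den A z ^ 2 := by
    rw [← e1]
    field_simp
  have e2' : dzb W (mob A z) = 1 / den B (W z) ^ 2 * dzb W z * conj (den A z) ^ 2 := by
    rw [← e2]
    field_simp
  rw [e1', e2']
  ring

/-- INB: invariance of the coefficient. -/
theorem pINB : Pool.Agent.Helper68.QC.StINB := by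
  intro W A B hW hne hA hB
  have h1 : ∀ᵐ z : ℂ, z ∈ offS := by
    have h := Measure.addHaar_sphere (volume : Measure ℂ) (0 : ℂ) 1
    rw [ae_iff]
    refine measure_mono_null ?_ h
    intro z hz
    rw [mem_sphere_zero_iff_norm]
    by_contra hcon
    exact hz hcon
  have h2 : ∀ᵐ z : ℂ, den A z ≠ 0 := by
    rw [ae_iff]
    refine Set.Subsingleton.measure_zero ?_ volume
    intro x hx y hy
    have hx' : A 1 0 * x + A 1 1 = 0 := not_not.1 hx
    have hy' : A 1 0 * y + A 1 1 = 0 := not_not.1 hy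
    have hdet := det_one A
    by_contra hxy
    have h3 : A 1 0 * (x - y) = 0 := by linear_combination hx' - hy'
    rcases mul_eq_zero.1 h3 with h4 | h4
    · rw [h4, zero_mul, zero_add] at hx'
      rw [h4, hx'] at hdet
      simp at hdet
    · exact hxy (sub_eq_zero.1 h4)
  filter_upwards [h1, h2] with z hz hd
  exact pt W A B hW hne hA hB z hz hd

end Pool.Agent.Helper36.QCM
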